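import Mathlib

set_option autoImplicit false

namespace Pool.Agent.Results.MP_e4e265_co.RowThree

/-- the greedy matrix: `q i j` is the least natural number not of the form
`q i k + q l j - q l k` (computed in the integers) with `l < i`, `k < j` -/
noncomputable def q : ℕ → ℕ → ℕ
  | i, j => sInf {n : ℕ | ∀ (l : Fin i) (k : Fin j),
      (n : ℤ) ≠ (q i k : ℤ) + (q l j : ℤ) - (q l k : ℤ)}
termination_by i j => (i, j)
decreasing_by
  · exact Prod.Lex.right _ k.2
  · exact Prod.Lex.left _ _ l.2
  · exact Prod.Lex.left _ _ l.2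

lemma ne_set (i j : ℕ) : {n : ℕ | ∀ (l : Fin i) (k : Fin j),
      (n : ℤ) ≠ (q i k : ℤ) + (q l j : ℤ) - (q l k : ℤ)}.Nonempty := by
  refine ⟨(Finset.univ : Finset (Fin i × Fin j)).sup (fun x => q i x.2 + q x.1 j) + 1, ?_⟩
  intro l k
  have : q i k + q l j ≤ (Finset.univ : Finset (Fin i × Fin j)).sup
      (fun x => q i x.2 + q x.1 j) :=
    Finset.le_sup (f := fun x : Fin i × Fin j => q i x.2 + q x.1 j) (Finset.mem_univ (l, k))
  omega

lemma avoid (i j l k : ℕ) (hl : l < i) (hk : k < j) :
    (q i j : ℤ) ≠ (q i k : ℤ) + (q l j : ℤ) - (q l k : ℤ) := by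
  have h := Nat.sInf_mem (ne_set i j)
  rw [← q] at h
  exact h ⟨l, hl⟩ ⟨k, hk⟩

lemma below (i j n : ℕ) (h : n < q i j) :
    ∃ l < i, ∃ k < j, (n : ℤ) = (q i k : ℤ) + (q l j : ℤ) - (q l k : ℤ) := by
  rw [q] at h
  have h1 := Nat.notMem_of_lt_sInf h
  simp only [Set.mem_setOf_eq, not_forall, not_not] at h1
  obtain ⟨l, k, e⟩ := h1
  exact ⟨l, l.2, k, k.2, e⟩

lemma row0 (j : ℕ) : q 0 j = 0 := by
  by_contra h
  obtain ⟨l, hl, -⟩ := below 0 j 0 (Nat.pos_of_ne_zero h)
  omega

lemma inj (i : ℕ) (hi : 0 < i) : Function.Injective (q i) := by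
  intro a b e
  rcases lt_trichotomy a b with h | h | h
  · have := avoid i b 0 a hi h
    rw [row0, row0] at this; omega
  · exact h
  · have := avoid i a 0 b hi h
    rw [row0, row0] at this; omega

lemma row1 (j : ℕ) : q 1 j = j := by
  induction j using Nat.strong_induction_on with
  | _ j ih =>
    rcases lt_trichotomy (q 1 j) j with h | h | h
    · have := inj 1 one_pos (a₁ := j) (a₂ := q 1 j) (by rw [ih _ h])
      omega
    · exact h
    · obtain ⟨l, hl, k, hk, e⟩ := below 1 j j h
      obtain rfl : l = 0 := by omega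
      rw [row0, row0, ih k hk] at e; omega

/-- an injective sequence has late, large records -/
lemma record (f : ℕ → ℕ) (hf : Function.Injective f) (N : ℕ) :
    ∃ j, N ≤ j ∧ N ≤ f j ∧ ∀ k < j, f k < f j := by
  classical
  have hex : ∃ j, (Finset.range (N + 1)).sup f + N < f j := by
    by_contra hc
    push Not at hc
    have : (Set.range f).Finite :=
      (Set.finite_Iic _).subset (by rintro _ ⟨j, rfl⟩; exact hc j)
    exact Set.infinite_range_of_injective hf this
  refine ⟨Nat.find hex, ?_, ?_, ?_⟩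
  · by_contra hc
    have h1 := Nat.find_spec hex
    have : f (Nat.find hex) ≤ (Finset.range (N + 1)).sup f :=
      Finset.le_sup (f := f) (Finset.mem_range.2 (by omega))
    omega
  · have h1 := Nat.find_spec hex; omega
  · intro k hk
    have h1 := Nat.find_spec hex
    have h2 := Nat.find_min hex hk
    omega

theorem result : Function.Bijective (q 3) := by
  refine ⟨inj 3 (by norm_num), fun v => ?_⟩
  by_contra hv
  push Not at hv
  have hfin : (q 3 ⁻¹' Set.Iic v).Finite :=
    (Set.finite_Iic v).preimage (inj 3 (by norm_num)).injOn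
  obtain ⟨K, hK⟩ := hfin.bddAbove
  have hK' : ∀ k, q 3 k ≤ v → k ≤ K := fun k h => hK h
  obtain ⟨j, h1, h2, h3⟩ := record (q 2) (inj 2 (by norm_num))
    ((Finset.range (K + 1)).sup (q 2) + K + v + 1)
  have hlt : v < q 3 j := by
    by_contra hc
    have := hK' j (by omega)
    omega
  obtain ⟨l, hl, k, hk, e⟩ := below 3 j v hlt
  have h4 := h3 k hk
  interval_cases l
  · rw [row0, row0] at e
    exact hv k (by omega)
  · rw [row1, row1] at e
    have := hK' k (by omega)
    omega
  · have h5 := hK' k (by omega)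
    have : q 2 k ≤ (Finset.range (K + 1)).sup (q 2) :=
      Finset.le_sup (f := q 2) (Finset.mem_range.2 (by omega))
    omega

end Pool.Agent.Results.MP_e4e265_co.RowThree
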